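import Pool.Agent.H41.Dpp4

open MeasureTheory Pool.Agent.H41.Dpp

theorem Pool.Agent.Results.MP_01c081_pr.Exists.result :
    ∃ Q : Measure Ω, IsDPP Q ∧
      (∀ᵐ p ∂(palm Q).prod dirLaw, ∃ n, 0 < n ∧ X p.1 p.2 n = 0) ∧ ¬ CondT Q :=
  recurrent
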